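import Pool.Agent.Helper76.NW8

set_option autoImplicit false
open Metric

namespace Pool.Agent.Results.MP_4d0082_an.OnlyZero

/-- The Hardy space of the unit disc: square-summable sequences of Taylor coefficients. -/
abbrev H2 : Type := ↥(lp (fun _ : ℕ => ℂ) 2)

/-- The value at `z` of the function whose Taylor coefficients are `a`. -/
noncomputable def val (a : H2) (z : ℂ) : ℂ := ∑' n : ℕ, a n * z ^ n

/-- The bounded operator `T` on the Hardy space is the weighted composition operator
`f ↦ ψ · (f ∘ φ)`. -/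
def IsWeightedComposition (ψ φ : ℂ → ℂ) (T : H2 →L[ℂ] H2) : Prop :=
  ∀ a : H2, ∀ z ∈ ball (0 : ℂ) 1, val (T a) z = ψ z * val a (φ z)

/-- `φ` is linear fractional on the unit disc: `φ z = (a z + b) / (c z + d)` with
`a d - b c ≠ 0`. -/
def IsLinearFractional (φ : ℂ → ℂ) : Prop :=
  ∃ a b c d : ℂ, a * d - b * c ≠ 0 ∧
    ∀ z ∈ ball (0 : ℂ) 1, c * z + d ≠ 0 ∧ φ z = (a * z + b) / (c * z + d)

/-- `S` is the adjoint of `T` on the Hardy space. -/
def IsAdjoint (S T : H2 →L[ℂ] H2) : Prop := ∀ f g : H2, inner ℂ (S f) g = inner ℂ f (T g)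

/-- `T` commutes with its adjoint. -/
def IsNormalOperator (T : H2 →L[ℂ] H2) : Prop :=
  ∃ S : H2 →L[ℂ] H2, IsAdjoint S T ∧ ∀ f : H2, S (T f) = T (S f)

/-- `f ↦ ψ · (f ∘ φ)` is a bounded normal operator on the Hardy space. -/
def IsBoundedNormal (ψ φ : ℂ → ℂ) : Prop :=
  ∃ T : H2 →L[ℂ] H2, IsWeightedComposition ψ φ T ∧ IsNormalOperator T

/-- If `φ` is an analytic self-map of the disc without fixed point in the disc which is not linear
fractional, and `ψ` is analytic, then the weighted composition operator `f ↦ ψ · (f ∘ φ)` is a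
bounded normal operator on the Hardy space if and only if `ψ` vanishes identically. -/
theorem result (ψ φ : ℂ → ℂ)
    (hψ : DifferentiableOn ℂ ψ (ball (0 : ℂ) 1))
    (hφ : DifferentiableOn ℂ φ (ball (0 : ℂ) 1))
    (hmaps : Set.MapsTo φ (ball (0 : ℂ) 1) (ball (0 : ℂ) 1))
    (hfix : ∀ z ∈ ball (0 : ℂ) 1, φ z ≠ z)
    (hlf : ¬ IsLinearFractional φ) :
    IsBoundedNormal ψ φ ↔ ∀ z ∈ ball (0 : ℂ) 1, ψ z = 0 := by
  constructor
  · rintro ⟨T, hT, S, hS, hn⟩
    have hadj : ContinuousLinearMap.adjoint T = S := by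
      symm
      rw [ContinuousLinearMap.eq_adjoint_iff]
      exact hS
    by_contra hne
    push Not at hne
    obtain ⟨z0, hz0, hz0'⟩ := hne
    apply hlf
    have hs : Pool.Agent.Helper76.NW.WSys ψ φ T :=
      { hψ := hψ
        hφ := hφ
        hm := fun z hz => by
          have := hmaps (show z ∈ ball (0 : ℂ) 1 by simpa using hz)
          simpa using this
        hT := fun f z hz => hT f z (by simpa using hz)
        normal := by
          constructor
          rw [ContinuousLinearMap.star_eq_adjoint, hadj]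
          ext1 f
          exact hn f
        hfix := fun z hz => hfix z (by simpa using hz)
        hne := ⟨z0, by simpa using hz0, hz0'⟩ }
    obtain ⟨a, b, c, d, h1, h2⟩ := hs.isLF
    exact ⟨a, b, c, d, h1, fun z hz => h2 z (by simpa using hz)⟩
  · intro h
    refine ⟨0, ?_, ?_⟩
    · intro a z hz
      rw [h z hz, zero_mul]
      simp [val]
    · exact ⟨0, fun f g => by simp, fun f => by simp⟩

end Pool.Agent.Results.MP_4d0082_an.OnlyZero
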